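import Pool.Agent.Helper93.TLE.StB

/-!
# Project TLE: module CORE1 (level `5`)
-/

set_option autoImplicit false

namespace Pool.Agent.Helper21.TLE

open Pool.Agent.Helper14.CV (Homog EqC act Tl StFar StFex)
open Pool.Agent.Helper28.WK (Tw evw)
open Pool.Agent.Helper4.TL Pool.Agent.Helper93.TLE

theorem hCore1 : SECore1 := by
  intro hfar G hS _hW hst hev
  have hom := hS.1
  have neg : ∀ p q : ℤ, (p ≠ 0 ∨ q ≠ 0) → G (-p) (-q) = G p q := by
    intro p q hpq
    have := hom (-1) p q (by norm_num) hpq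
    rw [← this]
    congr 1 <;> ring
  -- the empty word
  have h01 : G 1 0 = G 0 1 := by
    have h := hev [] (by intro l hl; simp at hl)
    simp only [evw, Tw] at h
    exact sub_eq_zero.1 h
  -- the symbol relation at two vectors
  have val : ∀ (a b c d : ℤ), a * d - 5 * b * c = 1 → ∀ (u1 u2 v1 v2 : ℤ), (u1 ≠ 0 ∨ u2 ≠ 0) →
      (v1 ≠ 0 ∨ v2 ≠ 0) → G u1 u2 = G v1 v2 →
      G (a * u1 + b * u2) (5 * c * u1 + d * u2) = G (a * v1 + b * v2) (5 * c * v1 + d * v2) := by
    intro a b c d h u1 u2 v1 v2 hu hv huv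
    have e := (hS.2 a b (5 * c) d (by linear_combination h) (by norm_num)
      (by norm_num)).diff hu hv
    simp only [act, Pi.smul_apply] at e
    rw [huv, sub_self] at e
    exact sub_eq_zero.1 e
  -- the value at the cusp one half
  have h12 : G 1 0 = G 1 2 := by
    have e1 := hst.diff (p := 1) (q := 2) (p' := 0) (q' := 1) (Or.inl one_ne_zero)
      (Or.inr one_ne_zero)
    have e2 := (hS.2 1 (-1) 0 1 (by norm_num) (by norm_num) (by norm_num)).diff
      (p := 1) (q := 2) (p' := 0) (q' := 1) (Or.inl one_ne_zero) (Or.inr one_ne_zero)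
    have e3 := (hS.2 1 (-1) 0 1 (by norm_num) (by norm_num) (by norm_num)).diff
      (p := 1) (q := 0) (p' := 0) (q' := 1) (Or.inl one_ne_zero) (Or.inr one_ne_zero)
    have he : eps 1 (-1) 0 1 = -1 := by decide
    simp only [act, Pi.smul_apply, he] at e1 e2 e3
    norm_num at e1 e2 e3
    have e4 : G 1 0 - G (-1) 1 = 0 := by
      rw [e3, h01]
      ring
    rw [h01]
    have e5 : G 1 2 - G 0 1 = 0 := by
      have e6 : G (-1) 1 = G 0 1 := by rw [← h01]; exact (sub_eq_zero.1 e4).symm
      rw [e6] at e2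
      have : (2 : ℂ) * (G 1 2 - G 0 1) = 0 := by linear_combination e2 - e1
      rcases mul_eq_zero.1 this with h | h
      · norm_num at h
      · exact h
    exact (sub_eq_zero.1 e5).symm
  have keyf : ∀ a b c d : ℤ, a * d - 5 * b * c = 1 → G a (5 * c) = G b d := by
    intro a b c d h
    have e := val a b c d h 1 0 0 1 (Or.inl one_ne_zero) (Or.inr one_ne_zero) h01
    simpa using e
  have keyl : ∀ a b c d : ℤ, a * d - 5 * b * c = 1 →
      G a (5 * c) = G (a + b * 2) (5 * c + d * 2) := by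
    intro a b c d h
    have e := val a b c d h 1 0 1 2 (Or.inl one_ne_zero) (Or.inl one_ne_zero) h12
    simpa using e
  apply hfar ℂ inferInstance G hom
  intro a b c d h
  have hac : a ≠ 0 ∨ c ≠ 0 := by
    by_contra hc
    push Not at hc
    rw [hc.1, hc.2] at h
    norm_num at h
  have hcases : (5 : ℤ) ∣ c ∨ (5 : ℤ) ∣ d ∨ (5 : ℤ) ∣ c + d ∨ (5 : ℤ) ∣ c - d ∨
      (5 : ℤ) ∣ c - 2 * d ∨ (5 : ℤ) ∣ 2 * c - d := by
    have h5 : c % 5 = 0 ∨ c % 5 = 1 ∨ c % 5 = 2 ∨ c % 5 = 3 ∨ c % 5 = 4 := by omega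
    have h6 : d % 5 = 0 ∨ d % 5 = 1 ∨ d % 5 = 2 ∨ d % 5 = 3 ∨ d % 5 = 4 := by omega
    rcases h5 with h5 | h5 | h5 | h5 | h5 <;> rcases h6 with h6 | h6 | h6 | h6 | h6 <;> omega
  rcases hcases with hc | hc | hc | hc | hc | hc
  · obtain ⟨c', rfl⟩ := hc
    exact keyf a b c' d (by linear_combination h)
  · obtain ⟨d', rfl⟩ := hc
    have := keyf b (-a) d' (-c) (by linear_combination h)
    rw [this, neg a c hac]
  · obtain ⟨e', he'⟩ := hc
    have k1 := keyf (a + b) b e' d (by linear_combination h + b * he')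
    have k2 := keyf (a + b) (-a) e' (-c) (by linear_combination h - a * he')
    rw [← k1, k2, neg a c hac]
  · obtain ⟨e', he'⟩ := hc
    have k1 := keyf (a - b) b e' d (by linear_combination h + b * he')
    have k2 := keyf (a - b) a e' c (by linear_combination h + a * he')
    rw [← k1, k2]
  · obtain ⟨e', he'⟩ := hc
    have k1 := keyf (a - 2 * b) b e' d (by linear_combination h + b * he')
    have k2 := keyl (a - 2 * b) b e' d (by linear_combination h + b * he')
    have e1 : G (a - 2 * b + b * 2) (5 * e' + d * 2) = G a c := by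
      rw [← he']
      congr 1 <;> ring
    rw [← k1, k2, e1]
  · obtain ⟨e', he'⟩ := hc
    have k1 := keyf (2 * a - b) a e' c (by linear_combination h + a * he')
    have k2 := keyl (2 * a - b) (b - a) e' (d - c) (by linear_combination h + (b - a) * he')
    have e1 : G (2 * a - b + (b - a) * 2) (5 * e' + (d - c) * 2) = G b d := by
      rw [← he']
      congr 1 <;> ring
    rw [← k1, k2, e1]

end Pool.Agent.Helper21.TLE
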